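import Pool.Agent.W890.SF.Stm

set_option autoImplicit false

namespace Pool.Agent.W738.SAM

open Finset Pool.Agent.W890.SF

theorem sab (h1 : S_T2A) (h2 : S_MIX1) (h3 : S_MIX2) : S_SAB := by
  intro r hr x hx hrx V _ _ y hy hsum
  have hr2 : (2 : ℝ) ≤ r := by exact_mod_cast hr
  have hx1 : x < 1 := by nlinarith
  have hrx1 : (r : ℝ) * x < 1 := by nlinarith
  by_cases hc : ∃ v, y v ≠ x
  · obtain ⟨P, instP, π, a, b, q, hπ, hπ1, hq, hmix, -⟩ := h3 V y x hy hsum hc
    rw [h2 V P y π a b q hmix r, mul_comm ((1 - x) ^ r)]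
    refine mul_le_mul_of_nonneg_left ?_ (by positivity)
    have hpow : ∑ p : Fin r → P, ∏ i, π (p i) = 1 := by
      have h := Finset.prod_univ_sum (ι := Fin r) (κ := fun _ => P) (fun _ => (univ : Finset P))
        (fun _ p => π p)
      rw [Fintype.piFinset_univ] at h
      rw [← h]
      simp [hπ1]
    calc (1 - x) ^ r = ∑ p : Fin r → P, (∏ i, π (p i)) * (1 - x) ^ r := by
          rw [← Finset.sum_mul, hpow, one_mul]
      _ ≤ _ := by
          refine Finset.sum_le_sum fun p _ => ?_
          refine mul_le_mul_of_nonneg_left ?_ (Finset.prod_nonneg fun i _ => (hπ (p i)).le)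
          refine h1 r hr x hx hrx _ _ _ ⟨?_, ?_, ?_, ?_, ?_⟩
          · exact fun i => (hq (p i)).1
          · exact fun i => (hq (p i)).2.1
          · exact fun i => (hq (p i)).2.2.1
          · exact fun i => (hq (p i)).2.2.2.1
          · exact fun i => (hq (p i)).2.2.2.2
  · push Not at hc
    have hset : {f : Fin r → V | ∑ i, y (f i) < 1} = Set.univ := by
      ext f
      simp only [Set.mem_setOf_eq, Set.mem_univ, iff_true]
      have : ∑ i, y (f i) = r * x := by
        simp [hc]
      rw [this]
      exact hrx1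
    rw [hset, Set.ncard_univ, Nat.card_eq_fintype_card]
    simp only [Fintype.card_pi, Finset.prod_const, Finset.card_univ, Fintype.card_fin]
    push_cast
    have h0 : (1 - x) ^ r ≤ 1 := pow_le_one₀ (by linarith) (by linarith)
    have hV : (0 : ℝ) ≤ (Fintype.card V : ℝ) ^ r := by positivity
    nlinarith

end Pool.Agent.W738.SAM
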